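import Mathlib

/-!
A free substitution: six blocks (lengths 18 and 19) over three letters; any choice of the
lengths turns a square-free word into a square-free word.
-/

set_option autoImplicit false

namespace Pool.Agent.Lib.MP_908f5f_co

/-- base 4 encoding of `f a, f (a+1), ..., f (a+n-1)`. -/
def enc (f : ℕ → ℕ) : ℕ → ℕ → ℕ
  | _, 0 => 0
  | a, n + 1 => f a + 4 * enc f (a + 1) n

lemma enc_add (f : ℕ → ℕ) (n m : ℕ) : ∀ a, enc f a (n + m) = enc f a n + 4 ^ n * enc f (a + n) m := by
  induction n with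
  | zero => intro a; simp [enc]
  | succ n ih =>
    intro a
    have h1 : n + 1 + m = (n + m) + 1 := by ring
    rw [h1]
    simp only [enc]
    rw [ih (a + 1)]
    have h2 : a + 1 + n = a + (n + 1) := by ring
    rw [h2, pow_succ]
    ring

lemma enc_lt (f : ℕ → ℕ) (hf : ∀ i, f i < 4) (n : ℕ) : ∀ a, enc f a n < 4 ^ n := by
  induction n with
  | zero => intro a; simp [enc]
  | succ n ih =>
    intro a
    simp only [enc]
    have h1 := ih (a + 1)
    have h2 := hf a
    rw [pow_succ]
    omega

lemma enc_congr (f g : ℕ → ℕ) (n : ℕ) : ∀ a b, (∀ m, m < n → f (a + m) = g (b + m)) →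
    enc f a n = enc g b n := by
  induction n with
  | zero => intro a b _; rfl
  | succ n ih =>
    intro a b h
    simp only [enc]
    have h0 := h 0 (by omega)
    simp only [add_zero] at h0
    rw [h0, ih (a + 1) (b + 1)]
    intro m hm
    have := h (m + 1) (by omega)
    rw [show a + 1 + m = a + (m + 1) by ring, show b + 1 + m = b + (m + 1) by ring]
    exact this

/-- the sub-block `[o, o+q)` of a block of length at least `o+q`. -/
lemma enc_sub (f : ℕ → ℕ) (hf : ∀ i, f i < 4) (a n o q : ℕ) (h : o + q ≤ n) :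
    enc f a n / 4 ^ o % 4 ^ q = enc f (a + o) q := by
  obtain ⟨r, rfl⟩ := Nat.exists_eq_add_of_le h
  rw [add_assoc, enc_add f o (q + r) a, enc_add f q r (a + o)]
  have h1 := enc_lt f hf o a
  have h2 := enc_lt f hf q (a + o)
  have hp : 0 < 4 ^ o := by positivity
  rw [Nat.add_mul_div_left _ _ hp, Nat.div_eq_of_lt h1, zero_add, Nat.add_mul_mod_self_left,
    Nat.mod_eq_of_lt h2]

lemma enc_one (f : ℕ → ℕ) (a : ℕ) : enc f a 1 = f a := by simp [enc]

/-- the six blocks. -/
def code (a e : ℕ) : ℕ :=
  if a = 0 then (if e = 0 then 40907449476 else 163630687364)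
  else if a = 1 then (if e = 0 then 39067346052 else 156269384068)
  else (if e = 0 then 39076336004 else 156305335428)

def sq (W o q : ℕ) : Bool := W / 4 ^ o % 4 ^ q == W / 4 ^ (o + q) % 4 ^ q

def noSq (W l : ℕ) : Bool :=
  (List.range 20).all fun q => (List.range l).all fun o => !(sq W o (q + 1))

def triple (a b c e1 e2 e3 : ℕ) : ℕ :=
  code a e1 + 4 ^ (18 + e1) * (code b e2 + 4 ^ (18 + e2) * (code c e3 + 4 ^ (18 + e3) * 4))

def chkTriples : Bool :=
  (List.range 3).all fun a => (List.range 3).all fun b => a == b ||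
    (List.range 3).all fun c => b == c ||
      (List.range 2).all fun e1 => (List.range 2).all fun e2 => (List.range 2).all fun e3 =>
        noSq (triple a b c e1 e2 e3) (18 + e1)

lemma chkTriples_true : chkTriples = true := by decide +kernel

lemma triple_noSq {a b c e1 e2 e3 o q : ℕ} (ha : a < 3) (hb : b < 3) (hc : c < 3) (hab : a ≠ b)
    (hbc : b ≠ c) (h1 : e1 ≤ 1) (h2 : e2 ≤ 1) (h3 : e3 ≤ 1) (hq0 : 0 < q) (hq : q ≤ 20)
    (ho : o < 18 + e1) :
    triple a b c e1 e2 e3 / 4 ^ o % 4 ^ q ≠ triple a b c e1 e2 e3 / 4 ^ (o + q) % 4 ^ q := by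
  have h := chkTriples_true
  unfold chkTriples at h
  rw [List.all_eq_true] at h
  have h := h a (List.mem_range.2 ha)
  rw [List.all_eq_true] at h
  have h := h b (List.mem_range.2 hb)
  have e : (a == b) = false := by simpa using hab
  rw [e, Bool.false_or, List.all_eq_true] at h
  have h := h c (List.mem_range.2 hc)
  have e : (b == c) = false := by simpa using hbc
  rw [e, Bool.false_or, List.all_eq_true] at h
  have h := h e1 (List.mem_range.2 (by omega))
  rw [List.all_eq_true] at h
  have h := h e2 (List.mem_range.2 (by omega))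
  rw [List.all_eq_true] at h
  have h := h e3 (List.mem_range.2 (by omega))
  unfold noSq at h
  rw [List.all_eq_true] at h
  have h := h (q - 1) (List.mem_range.2 (by omega))
  rw [List.all_eq_true] at h
  have h := h o (List.mem_range.2 ho)
  rw [show q - 1 + 1 = q by omega] at h
  unfold sq at h
  simpa using h

/-- marker check: `010` occurs in a block followed by `01` only at offset `0`. -/
def chkMark : Bool :=
  (List.range 3).all fun a => (List.range 2).all fun e => (List.range (18 + e)).all fun o =>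
    ((code a e + 4 ^ (18 + e) * 4) / 4 ^ o % 4 ^ 3 == 4) == (o == 0)

lemma chkMark_true : chkMark = true := by decide +kernel

lemma mark {a e o : ℕ} (ha : a < 3) (he : e ≤ 1) (ho : o < 18 + e) :
    (code a e + 4 ^ (18 + e) * 4) / 4 ^ o % 4 ^ 3 = 4 ↔ o = 0 := by
  have h := chkMark_true
  unfold chkMark at h
  rw [List.all_eq_true] at h
  have h := h a (List.mem_range.2 ha)
  rw [List.all_eq_true] at h
  have h := h e (List.mem_range.2 (by omega))
  rw [List.all_eq_true] at h
  have h := h o (List.mem_range.2 ho)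
  rw [beq_iff_eq] at h
  constructor
  · intro h1
    rw [h1] at h
    simpa using h.symm
  · intro h1
    subst h1
    simpa using h

def chkPre : Bool :=
  (List.range 3).all fun a => (List.range 3).all fun b => a == b ||
    (List.range 2).all fun e => (List.range 2).all fun e' =>
      !(code a e % 4 ^ 12 == code b e' % 4 ^ 12) &&
      !(code a e / 4 ^ (12 + e) % 4 ^ 6 == code b e' / 4 ^ (12 + e') % 4 ^ 6)

lemma chkPre_true : chkPre = true := by decide +kernel

lemma pre {a b e e' : ℕ} (ha : a < 3) (hb : b < 3) (he : e ≤ 1) (he' : e' ≤ 1)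
    (h12 : code a e % 4 ^ 12 = code b e' % 4 ^ 12) : a = b := by
  by_contra hab
  have h := chkPre_true
  unfold chkPre at h
  rw [List.all_eq_true] at h
  have h := h a (List.mem_range.2 ha)
  rw [List.all_eq_true] at h
  have h := h b (List.mem_range.2 hb)
  have e1 : (a == b) = false := by simpa using hab
  rw [e1, Bool.false_or, List.all_eq_true] at h
  have h := h e (List.mem_range.2 (by omega))
  rw [List.all_eq_true] at h
  have h := h e' (List.mem_range.2 (by omega))
  rw [Bool.and_eq_true] at h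
  have h := h.1
  rw [h12] at h
  simp at h

lemma suf {a b e e' : ℕ} (ha : a < 3) (hb : b < 3) (he : e ≤ 1) (he' : e' ≤ 1)
    (h6 : code a e / 4 ^ (12 + e) % 4 ^ 6 = code b e' / 4 ^ (12 + e') % 4 ^ 6) : a = b := by
  by_contra hab
  have h := chkPre_true
  unfold chkPre at h
  rw [List.all_eq_true] at h
  have h := h a (List.mem_range.2 ha)
  rw [List.all_eq_true] at h
  have h := h b (List.mem_range.2 hb)
  have e1 : (a == b) = false := by simpa using hab
  rw [e1, Bool.false_or, List.all_eq_true] at h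
  have h := h e (List.mem_range.2 (by omega))
  rw [List.all_eq_true] at h
  have h := h e' (List.mem_range.2 (by omega))
  rw [Bool.and_eq_true] at h
  have h := h.2
  rw [h6] at h
  simp at h

/-- the word `f` is the concatenation of the blocks `code (u t) (ε t)`, block `t` starting at
`b t`. -/
structure IsCat (u ε b f : ℕ → ℕ) : Prop where
  hu : ∀ t, u t < 3
  he : ∀ t, ε t ≤ 1
  hf4 : ∀ n, f n < 4
  b0 : b 0 = 0
  bs : ∀ t, b (t + 1) = b t + 18 + ε t
  hf : ∀ t, enc f (b t) (18 + ε t) = code (u t) (ε t)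

/-- no square `f[a, a+q) = f[a+q, a+2q)` with `a + 2 q ≤ M`. -/
def SqFreeTo (f : ℕ → ℕ) (M : ℕ) : Prop :=
  ∀ a q, 0 < q → a + 2 * q ≤ M → ∃ m, m < q ∧ f (a + m) ≠ f (a + q + m)

namespace IsCat

variable {u ε b f : ℕ → ℕ} (h : IsCat u ε b f)
include h

lemma mono : StrictMono b := strictMono_nat_of_lt_succ fun t => by
  have := h.bs t; omega

lemma step_le (t : ℕ) : b t + 18 ≤ b (t + 1) := by have := h.bs t; omega

lemma step_ge (t : ℕ) : b (t + 1) ≤ b t + 19 := by
  have := h.bs t; have := h.he t; omega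

/-- every block starts with `010`. -/
lemma start (t : ℕ) : enc f (b t) 3 = 4 := by
  have h1 := enc_sub f h.hf4 (b t) (18 + ε t) 0 3 (by omega)
  rw [h.hf t] at h1
  have h2 := (mark (o := 0) (h.hu t) (h.he t) (by have := h.he t; omega)).2 rfl
  simp only [pow_zero, Nat.div_one, add_zero] at h1 h2
  rw [← h1]
  have h3 : 4 ^ (18 + ε t) * 4 = 4 ^ 3 * (4 ^ (15 + ε t) * 4) := by
    rw [show 18 + ε t = 3 + (15 + ε t) by ring, pow_add]; ring
  rw [h3, Nat.add_mul_mod_self_left] at h2
  exact h2

lemma idx (n : ℕ) : ∃ t, b t ≤ n ∧ n < b (t + 1) := by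
  have hex : ∃ t, n < b (t + 1) := ⟨n, by
    have := h.mono.id_le (n + 1)
    simp only [id_eq] at this
    omega⟩
  classical
  refine ⟨Nat.find hex, ?_, Nat.find_spec hex⟩
  rcases Nat.eq_zero_or_pos (Nat.find hex) with h0 | h0
  · rw [h0, h.b0]; omega
  · have h1 := Nat.find_min hex (m := Nat.find hex - 1) (by omega)
    rw [show Nat.find hex - 1 + 1 = Nat.find hex by omega] at h1
    omega

lemma two (t : ℕ) : enc f (b t) (18 + ε t + 3) = code (u t) (ε t) + 4 ^ (18 + ε t) * 4 := by
  rw [enc_add, h.hf t]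
  have : b t + (18 + ε t) = b (t + 1) := by rw [h.bs t]; ring
  rw [this, h.start (t + 1)]

lemma three (t : ℕ) : enc f (b t) (18 + ε t + (18 + ε (t + 1) + (18 + ε (t + 2) + 3))) =
    triple (u t) (u (t + 1)) (u (t + 2)) (ε t) (ε (t + 1)) (ε (t + 2)) := by
  rw [enc_add, h.hf t]
  have e1 : b t + (18 + ε t) = b (t + 1) := by rw [h.bs t]; ring
  rw [e1, enc_add, h.hf (t + 1)]
  have e2 : b (t + 1) + (18 + ε (t + 1)) = b (t + 2) := by rw [h.bs (t + 1)]; ring
  rw [e2, h.two (t + 2)]
  rfl

/-- the marker `010` occurs exactly at the block starts. -/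
lemma mark_iff (n : ℕ) : enc f n 3 = 4 ↔ ∃ t, n = b t := by
  constructor
  · intro h1
    obtain ⟨t, ht1, ht2⟩ := h.idx n
    have hbs := h.bs t
    have h2 := enc_sub f h.hf4 (b t) (18 + ε t + 3) (n - b t) 3 (by omega)
    rw [h.two t, show b t + (n - b t) = n by omega, h1] at h2
    have h3 := (mark (o := n - b t) (h.hu t) (h.he t) (by omega)).1 h2
    exact ⟨t, by omega⟩
  · rintro ⟨t, rfl⟩
    exact h.start t

/-- short squares do not occur. -/
lemma short {M a q : ℕ} (hM : SqFreeTo u M) (hq0 : 0 < q) (hq : q ≤ 20)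
    (haq : a + 2 * q ≤ b (M - 3)) (h4 : 3 ≤ M) : ∃ m, m < q ∧ f (a + m) ≠ f (a + q + m) := by
  by_contra hcon
  push Not at hcon
  obtain ⟨t, ht1, ht2⟩ := h.idx a
  have htM : t < M - 3 := by
    by_contra hc
    have : b (M - 3) ≤ b t := h.mono.monotone (by omega)
    omega
  have hne : ∀ s, s + 2 ≤ M → u s ≠ u (s + 1) := by
    intro s hs
    obtain ⟨m, hm, hm2⟩ := hM s 1 one_pos (by omega)
    have : m = 0 := by omega
    subst this
    simpa using hm2
  have hbs := h.bs t
  have e1 := h.he t
  have hl := enc_sub f h.hf4 (b t) _ (a - b t) q (show (a - b t) + q ≤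
    18 + ε t + (18 + ε (t + 1) + (18 + ε (t + 2) + 3)) by omega)
  have hr := enc_sub f h.hf4 (b t) _ (a - b t + q) q (show (a - b t + q) + q ≤
    18 + ε t + (18 + ε (t + 1) + (18 + ε (t + 2) + 3)) by omega)
  rw [h.three t] at hl hr
  rw [show b t + (a - b t) = a by omega] at hl
  rw [show b t + (a - b t + q) = a + q by omega] at hr
  have heq := enc_congr f f q a (a + q) hcon
  exact triple_noSq (h.hu t) (h.hu (t + 1)) (h.hu (t + 2)) (hne t (by omega))
    (hne (t + 1) (by omega)) (h.he t) (h.he _) (h.he _) hq0 hq (o := a - b t) (by omega)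
    (by rw [hl, hr, heq])

end IsCat

end Pool.Agent.Lib.MP_908f5f_co
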