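import Pool.Agent.Lib.MP_908f5f_co.Long

/-!
Explicit concatenations, compactness, and infinite square-free words.
-/

set_option autoImplicit false

namespace Pool.Agent.Lib.MP_908f5f_co

def bpos (ε : ℕ → ℕ) : ℕ → ℕ
  | 0 => 0
  | t + 1 => bpos ε t + 18 + ε t

lemma bpos_ge (ε : ℕ → ℕ) (t : ℕ) : 18 * t ≤ bpos ε t := by
  induction t with
  | zero => simp [bpos]
  | succ t ih => simp only [bpos]; omega

/-- the index of the block containing position `n`. -/
def bidx (ε : ℕ → ℕ) (n : ℕ) : ℕ := Nat.findGreatest (fun t => bpos ε t ≤ n) n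

lemma bidx_eq (ε : ℕ → ℕ) {n t : ℕ} (h1 : bpos ε t ≤ n) (h2 : n < bpos ε (t + 1)) :
    bidx ε n = t := by
  have hmono : StrictMono (bpos ε) := strictMono_nat_of_lt_succ fun t => by
    simp only [bpos]; omega
  unfold bidx
  rw [Nat.findGreatest_eq_iff]
  refine ⟨?_, fun _ => h1, ?_⟩
  · have := bpos_ge ε t; omega
  · intro s hs _ hc
    have := hmono.monotone (show t + 1 ≤ s from hs)
    omega

/-- the concatenation of the blocks `code (u t) (ε t)`. -/
def wd (u ε : ℕ → ℕ) (n : ℕ) : ℕ :=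
  code (u (bidx ε n)) (ε (bidx ε n)) / 4 ^ (n - bpos ε (bidx ε n)) % 4

lemma wd_eq (u ε : ℕ → ℕ) {t j : ℕ} (h : j < 18 + ε t) :
    wd u ε (bpos ε t + j) = code (u t) (ε t) / 4 ^ j % 4 := by
  have h1 : bidx ε (bpos ε t + j) = t := bidx_eq ε (by omega) (by simp only [bpos]; omega)
  unfold wd
  rw [h1, Nat.add_sub_cancel_left]

lemma enc_digits (f : ℕ → ℕ) (n : ℕ) : ∀ C a, C < 4 ^ n → (∀ j, j < n → f (a + j) = C / 4 ^ j % 4) →
    enc f a n = C := by
  induction n with
  | zero => intro C a h _; simp at h; simp [enc, h]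
  | succ n ih =>
    intro C a h h1
    simp only [enc]
    have h0 := h1 0 (by omega)
    simp only [add_zero, pow_zero, Nat.div_one] at h0
    rw [h0, ih (C / 4) (a + 1)]
    · omega
    · rw [pow_succ] at h; omega
    · intro j hj
      have := h1 (j + 1) (by omega)
      rw [show a + 1 + j = a + (j + 1) by ring, this, pow_succ, mul_comm (4 ^ j) 4,
        Nat.div_div_eq_div_mul]

lemma code_lt (a e : ℕ) : code a e < 4 ^ (18 + e) := by
  unfold code
  have h1 : (4 : ℕ) ^ 18 ≤ 4 ^ (18 + e) := Nat.pow_le_pow_right (by norm_num) (by omega)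
  have h2 : e ≠ 0 → (4 : ℕ) ^ 19 ≤ 4 ^ (18 + e) := fun h =>
    Nat.pow_le_pow_right (by norm_num) (by omega)
  have e1 : (4 : ℕ) ^ 18 = 68719476736 := by norm_num
  have e2 : (4 : ℕ) ^ 19 = 274877906944 := by norm_num
  rw [e1] at h1
  rw [e2] at h2
  by_cases he : e = 0
  · simp only [he, if_true]
    split_ifs <;> omega
  · have h3 := h2 he
    simp only [he, if_false]
    split_ifs <;> omega

def chkDig : Bool :=
  (List.range 3).all fun a => (List.range 2).all fun e => (List.range 19).all fun j =>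
    Nat.blt (code a e / 4 ^ j % 4) 3

lemma chkDig_true : chkDig = true := by decide +kernel

lemma dig {a e j : ℕ} (ha : a < 3) (he : e ≤ 1) (hj : j < 19) : code a e / 4 ^ j % 4 < 3 := by
  have h := chkDig_true
  unfold chkDig at h
  rw [List.all_eq_true] at h
  have h := h a (List.mem_range.2 ha)
  rw [List.all_eq_true] at h
  have h := h e (List.mem_range.2 (by omega))
  rw [List.all_eq_true] at h
  have h := h j (List.mem_range.2 hj)
  simpa [Nat.blt_eq] using h

lemma isCat_wd (u ε : ℕ → ℕ) (hu : ∀ t, u t < 3) (he : ∀ t, ε t ≤ 1) :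
    IsCat u ε (bpos ε) (wd u ε) where
  hu := hu
  he := he
  hf4 := fun n => Nat.mod_lt _ (by norm_num)
  b0 := rfl
  bs := fun t => rfl
  hf := fun t => enc_digits _ _ _ _ (code_lt _ _) fun j hj => wd_eq u ε hj

lemma wd_lt (u ε : ℕ → ℕ) (hu : ∀ t, u t < 3) (he : ∀ t, ε t ≤ 1) (n : ℕ) : wd u ε n < 3 := by
  obtain ⟨t, h1, h2⟩ := (isCat_wd u ε hu he).idx n
  have h3 : bpos ε (t + 1) = bpos ε t + 18 + ε t := rfl
  have h4 := wd_eq u ε (t := t) (j := n - bpos ε t) (by omega)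
  rw [show bpos ε t + (n - bpos ε t) = n by omega] at h4
  rw [h4]
  exact dig (hu t) (he t) (by have := he t; omega)

/-- compactness. -/
lemma exists_word (P : ℕ → ℕ) (h : ∀ N, ∃ w : ℕ → ℕ, (∀ n, w n < 3) ∧ ∀ i a q, 0 < q →
    P i * (a + 2 * q) ≤ N → ∃ m, m < q ∧ w (P i * (a + m)) ≠ w (P i * (a + q + m))) :
    ∃ w : ℕ → ℕ, (∀ n, w n < 3) ∧ ∀ i a q, 0 < q →
      ∃ m, m < q ∧ w (P i * (a + m)) ≠ w (P i * (a + q + m)) := by
  let T : ℕ × ℕ × ℕ → Set (ℕ → Fin 3) := fun k =>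
    {w | 0 < k.2.2 → ∃ m, m < k.2.2 ∧ w (P k.1 * (k.2.1 + m)) ≠ w (P k.1 * (k.2.1 + k.2.2 + m))}
  have hcl : ∀ k, IsClosed (T k) := by
    intro k
    by_cases hk : 0 < k.2.2
    · have he : T k = ⋃ m ∈ Finset.range k.2.2,
          {w | w (P k.1 * (k.2.1 + m)) ≠ w (P k.1 * (k.2.1 + k.2.2 + m))} := by
        ext w
        simp only [T, Set.mem_ofPred_eq, hk, true_imp_iff, Set.mem_iUnion, Finset.mem_range,
          exists_prop]
      rw [he]
      refine isClosed_biUnion_finset fun m _ => ?_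
      have hc : Continuous fun w : ℕ → Fin 3 =>
          (w (P k.1 * (k.2.1 + m)), w (P k.1 * (k.2.1 + k.2.2 + m))) := by fun_prop
      exact (isClosed_discrete {p : Fin 3 × Fin 3 | p.1 ≠ p.2}).preimage hc
    · have he : T k = Set.univ := by
        ext w; simp [T, hk]
      rw [he]; exact isClosed_univ
  have hne : (Set.univ ∩ ⋂ k, T k).Nonempty := by
    refine isCompact_univ.inter_iInter_nonempty T hcl fun F => ?_
    obtain ⟨w, hw3, hw⟩ := h (F.sup fun k => P k.1 * (k.2.1 + 2 * k.2.2))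
    refine ⟨fun n => ⟨w n, hw3 n⟩, Set.mem_univ _, ?_⟩
    simp only [Set.mem_iInter]
    intro k hk hq
    obtain ⟨m, hm, hm2⟩ := hw k.1 k.2.1 k.2.2 hq
      (Finset.le_sup (f := fun k : ℕ × ℕ × ℕ => P k.1 * (k.2.1 + 2 * k.2.2)) hk)
    exact ⟨m, hm, fun hc => hm2 (by simpa using congrArg Fin.val hc)⟩
  obtain ⟨w, -, hw⟩ := hne
  rw [Set.mem_iInter] at hw
  refine ⟨fun n => (w n : ℕ), fun n => (w n).2, fun i a q hq => ?_⟩
  obtain ⟨m, hm, hm2⟩ := hw (i, a, q) hq
  exact ⟨m, hm, fun hc => hm2 (Fin.ext hc)⟩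

/-- arbitrarily long square-free words. -/
lemma exists_long (k : ℕ) : ∃ (u : ℕ → ℕ) (M : ℕ), (∀ n, u n < 3) ∧ k + 6 ≤ M ∧ SqFreeTo u M := by
  induction k with
  | zero =>
    -- the word `010212`
    refine ⟨fun n => 2436 / 4 ^ n % 4 % 3, 6, fun n => Nat.mod_lt _ (by norm_num), le_rfl, ?_⟩
    intro a q hq ha
    have h1 : a < 5 := by omega
    have h2 : q < 4 := by omega
    interval_cases q
    · exact ⟨0, by norm_num, by interval_cases a <;> norm_num⟩
    · have h3 : a < 3 := by omega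
      interval_cases a
      · exact ⟨1, by norm_num, by norm_num⟩
      · exact ⟨0, by norm_num, by norm_num⟩
      · exact ⟨0, by norm_num, by norm_num⟩
    · have h3 : a < 1 := by omega
      interval_cases a
      exact ⟨0, by norm_num, by norm_num⟩
  | succ k ih =>
    obtain ⟨u, M, hu, hM, hs⟩ := ih
    have hc := isCat_wd u (fun _ => 0) hu (fun _ => by norm_num)
    refine ⟨wd u (fun _ => 0), bpos (fun _ => 0) (M - 3), wd_lt u _ hu (fun _ => by norm_num), ?_,
      hc.sqFree hs (by omega)⟩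
    have := bpos_ge (fun _ => 0) (M - 3)
    omega

/-- an infinite square-free word. -/
theorem exists_inf : ∃ u : ℕ → ℕ, (∀ n, u n < 3) ∧ ∀ M, SqFreeTo u M := by
  obtain ⟨w, hw3, hw⟩ := exists_word (fun _ => 1) (fun N => by
    obtain ⟨u, M, hu, hM, hs⟩ := exists_long N
    refine ⟨u, hu, fun i a q hq h => ?_⟩
    simp only [one_mul] at h ⊢
    exact hs a q hq (by omega))
  refine ⟨w, hw3, fun M a q hq _ => ?_⟩
  simpa using hw 0 a q hq

end Pool.Agent.Lib.MP_908f5f_co
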