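import Mathlib

/-!
Chains of steps with changing labels never close up; ownership of positions.
-/

set_option autoImplicit false

namespace Pool.Agent.Lib.MP_908f5f_co

/-- `x` and `y` are distinct multiples of `P i` at distance at most `C * P i`. -/
def Step (P : ℕ → ℕ) (C i x y : ℕ) : Prop :=
  P i ∣ x ∧ P i ∣ y ∧ x ≠ y ∧ x ≤ y + C * P i ∧ y ≤ x + C * P i

lemma Step.symm {P : ℕ → ℕ} {C i x y : ℕ} (h : Step P C i x y) : Step P C i y x :=
  ⟨h.2.1, h.1, h.2.2.1.symm, h.2.2.2.2, h.2.2.2.1⟩

/-- a chain of steps from `x` to `y`, labels at most `j`, consecutive labels distinct, last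
label `l`. -/
inductive Ch (P : ℕ → ℕ) (C j x : ℕ) : ℕ → ℕ → Prop
  | one {y l : ℕ} : l ≤ j → Step P C l x y → Ch P C j x y l
  | snoc {y z l l' : ℕ} : Ch P C j x y l → l' ≤ j → l' ≠ l → Step P C l' y z → Ch P C j x z l'

variable {P : ℕ → ℕ} {C : ℕ}

lemma Ch.le {j x y l : ℕ} (h : Ch P C j x y l) : l ≤ j := by
  cases h with
  | one h _ => exact h
  | snoc _ h _ _ => exact h

lemma Ch.mono {j j' x y l : ℕ} (hj : j ≤ j') (h : Ch P C j x y l) : Ch P C j' x y l := by
  induction h with
  | one h1 h2 => exact Ch.one (h1.trans hj) h2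
  | snoc _ h2 h3 h4 ih => exact Ch.snoc ih (h2.trans hj) h3 h4

lemma mult_gap {p x y : ℕ} (hx : p ∣ x) (hy : p ∣ y) (hne : x ≠ y) : x + p ≤ y ∨ y + p ≤ x := by
  obtain ⟨a, rfl⟩ := hx
  obtain ⟨b, rfl⟩ := hy
  rcases lt_trichotomy a b with h | h | h
  · left
    calc p * a + p = p * (a + 1) := by ring
      _ ≤ p * b := Nat.mul_le_mul_left _ h
  · exact absurd (by rw [h]) hne
  · right
    calc p * b + p = p * (b + 1) := by ring
      _ ≤ p * a := Nat.mul_le_mul_left _ h

theorem ch_bound (hC : 1 ≤ C) (hP : ∀ j, 4 * (C * P j) < P (j + 1)) (j : ℕ) :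
    ∀ x y l, Ch P C j x y l → x ≠ y ∧ x ≤ y + 2 * (C * P j) ∧ y ≤ x + 2 * (C * P j) := by
  induction j with
  | zero =>
    intro x y l h
    cases h with
    | one h1 h2 =>
      have : l = 0 := by omega
      subst this
      exact ⟨h2.2.2.1, by have := h2.2.2.2.1; omega, by have := h2.2.2.2.2; omega⟩
    | snoc h1 h2 h3 h4 =>
      have := h1.le
      omega
  | succ j ih =>
    have key : ∀ x y l, Ch P C (j + 1) x y l → Ch P C j x y l ∨
        ∃ x' y', (x = x' ∨ ∃ l1, Ch P C j x x' l1) ∧ Step P C (j + 1) x' y' ∧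
          ((y' = y ∧ l = j + 1) ∨ Ch P C j y' y l) := by
      intro x y l h
      induction h with
      | @one y l h1 h2 =>
        rcases Nat.lt_or_ge l (j + 1) with h3 | h3
        · exact Or.inl (Ch.one (by omega) h2)
        · have : l = j + 1 := by omega
          subst this
          exact Or.inr ⟨x, y, Or.inl rfl, h2, Or.inl ⟨rfl, rfl⟩⟩
      | @snoc y z l l' h1 h2 h3 h4 ih2 =>
        rcases Nat.lt_or_ge l' (j + 1) with h5 | h5
        · -- small new label
          rcases ih2 with ih2 | ⟨x', y', hx, hs, ⟨rfl, rfl⟩ | hy⟩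
          · exact Or.inl (Ch.snoc ih2 (by omega) h3 h4)
          · exact Or.inr ⟨x', y', hx, hs, Or.inr (Ch.one (by omega) h4)⟩
          · exact Or.inr ⟨x', y', hx, hs, Or.inr (Ch.snoc hy (by omega) h3 h4)⟩
        · have : l' = j + 1 := by omega
          subst this
          rcases ih2 with ih2 | ⟨x', y', hx, hs, ⟨rfl, rfl⟩ | hy⟩
          · exact Or.inr ⟨y, z, Or.inr ⟨l, ih2⟩, h4, Or.inl ⟨rfl, rfl⟩⟩
          · exact absurd rfl h3
          · exfalso
            obtain ⟨g1, g2, g3⟩ := ih _ _ _ hy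
            have g4 := mult_gap hs.2.1 h4.1 g1
            have g5 := hP j
            omega
    intro x y l h
    have g0 : P (j + 1) ≤ C * P (j + 1) := Nat.le_mul_of_pos_left _ hC
    have g5 := hP j
    rcases key x y l h with h1 | ⟨x', y', hx, hs, hy⟩
    · obtain ⟨g1, g2, g3⟩ := ih _ _ _ h1
      exact ⟨g1, by omega, by omega⟩
    · have hx' : x ≤ x' + 2 * (C * P j) ∧ x' ≤ x + 2 * (C * P j) := by
        rcases hx with rfl | ⟨l1, h1⟩
        · constructor <;> omega
        · exact (ih _ _ _ h1).2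
      have hy' : y' ≤ y + 2 * (C * P j) ∧ y ≤ y' + 2 * (C * P j) := by
        rcases hy with ⟨rfl, _⟩ | h1
        · constructor <;> omega
        · exact (ih _ _ _ h1).2
      have g4 := mult_gap hs.1 hs.2.1 hs.2.2.1
      have g6 := hs.2.2.2.1
      have g7 := hs.2.2.2.2
      refine ⟨by omega, by omega, by omega⟩

/-- chains with some label bound. -/
def Chn (P : ℕ → ℕ) (C x y l : ℕ) : Prop := ∃ j, Ch P C j x y l

lemma Chn.one {x y l : ℕ} (h : Step P C l x y) : Chn P C x y l := ⟨l, Ch.one le_rfl h⟩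

lemma Chn.snoc {x y z l l' : ℕ} (h : Chn P C x y l) (hne : l' ≠ l) (hs : Step P C l' y z) :
    Chn P C x z l' := by
  obtain ⟨j, hj⟩ := h
  exact ⟨max j l', Ch.snoc (hj.mono (le_max_left _ _)) (le_max_right _ _) hne hs⟩

section
variable (hC : 1 ≤ C) (hP : ∀ j, 4 * (C * P j) < P (j + 1))
include hC hP

lemma Chn.ne {x y l : ℕ} (h : Chn P C x y l) : x ≠ y := by
  obtain ⟨j, hj⟩ := h
  exact (ch_bound hC hP j _ _ _ hj).1

lemma ch_uniq {j x y i' : ℕ} (hB : Ch P C j x y i') : ∀ i, Chn P C x y i → i = i' := by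
  induction hB with
  | @one y i' h1 h2 =>
    intro i hA
    by_contra hne
    exact Chn.ne hC hP (hA.snoc (Ne.symm hne) h2.symm) rfl
  | @snoc z y l' i' h1 h2 h3 h4 ih =>
    intro i hA
    by_contra hne
    have := ih i' (hA.snoc (Ne.symm hne) h4.symm)
    exact h3 this

lemma Chn.uniq {x y i i' : ℕ} (h : Chn P C x y i) (h' : Chn P C x y i') : i = i' := by
  obtain ⟨j, hj⟩ := h'
  exact ch_uniq hC hP hj i h

end

/-- chains from `x` whose first label is not `0`. -/
inductive Reach (P : ℕ → ℕ) (C x : ℕ) : ℕ → ℕ → Prop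
  | one {y l : ℕ} : l ≠ 0 → Step P C l x y → Reach P C x y l
  | snoc {y z l l' : ℕ} : Reach P C x y l → l' ≠ l → Step P C l' y z → Reach P C x z l'

lemma Reach.chn {x y l : ℕ} (h : Reach P C x y l) : Chn P C x y l := by
  induction h with
  | one _ h2 => exact Chn.one h2
  | snoc _ h2 h3 ih => exact ih.snoc h2 h3

lemma Reach.dvd {x y l : ℕ} (h : Reach P C x y l) : P l ∣ y := by
  cases h with
  | one _ h2 => exact h2.2.1
  | snoc _ _ h3 => exact h3.2.1

/-- good partial ownership relations. -/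
structure Good (P : ℕ → ℕ) (C : ℕ) (A : Set (ℕ × ℕ)) : Prop where
  dvd : ∀ x i, (x, i) ∈ A → P i ∣ x
  fn : ∀ x i i', (x, i) ∈ A → (x, i') ∈ A → i = i'
  cl : ∀ x j y i, (x, j) ∈ A → Step P C i x y → i ≠ j → (y, i) ∈ A

theorem exists_owner (hC : 1 ≤ C) (hP0 : P 0 = 1) (hP : ∀ j, 4 * (C * P j) < P (j + 1)) :
    ∃ o : ℕ → ℕ, (∀ x, P (o x) ∣ x) ∧ ∀ i x y, Step P C i x y → o x = i ∨ o y = i := by
  obtain ⟨A, hA⟩ := zorn_subset {A : Set (ℕ × ℕ) | Good P C A} (by
    intro c hc hchain
    refine ⟨⋃₀ c, ?_, fun s hs => Set.subset_sUnion_of_mem hs⟩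
    constructor
    · rintro x i ⟨s, hs, hx⟩
      exact (hc hs).dvd x i hx
    · rintro x i i' ⟨s, hs, hx⟩ ⟨s', hs', hx'⟩
      rcases hchain.total hs hs' with h | h
      · exact (hc hs').fn x i i' (h hx) hx'
      · exact (hc hs).fn x i i' hx (h hx')
    · rintro x j y i ⟨s, hs, hx⟩ hst hij
      exact ⟨s, hs, (hc hs).cl x j y i hx hst hij⟩)
  have hG : Good P C A := hA.prop
  have hdom : ∀ x, ∃ i, (x, i) ∈ A := by
    intro x
    by_contra hx
    push Not at hx
    -- positions reached from `x` are compatible with `A`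
    have hcomp : ∀ y i, Reach P C x y i → ∀ i', (y, i') ∈ A → i = i' := by
      intro y i h
      induction h with
      | @one y l h1 h2 =>
        intro i' h3
        by_contra hne
        exact hx l (hG.cl y i' x l h3 h2.symm hne)
      | @snoc y z l l' h1 h2 h3 ih =>
        intro i' h4
        by_contra hne
        exact h2 (ih l' (hG.cl z i' y l' h4 h3.symm hne)).symm
    let A' : Set (ℕ × ℕ) := A ∪ ({(x, 0)} ∪ {p | Reach P C x p.1 p.2})
    have hA' : Good P C A' := by
      constructor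
      · rintro y i (h | h | h)
        · exact hG.dvd y i h
        · simp only [Set.mem_singleton_iff, Prod.mk.injEq] at h
          rw [h.2, hP0]; exact one_dvd _
        · exact Reach.dvd h
      · have hxx : ∀ i, ¬ Reach P C x x i := fun i h => Chn.ne hC hP h.chn rfl
        rintro y i i' (h | h | h) (h' | h' | h')
        · exact hG.fn y i i' h h'
        · simp only [Set.mem_singleton_iff, Prod.mk.injEq] at h'
          rw [h'.1] at h; exact absurd h (hx i)
        · exact (hcomp y i' h' i h).symm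
        · simp only [Set.mem_singleton_iff, Prod.mk.injEq] at h
          rw [h.1] at h'; exact absurd h' (hx i')
        · simp only [Set.mem_singleton_iff, Prod.mk.injEq] at h h'
          rw [h.2, h'.2]
        · simp only [Set.mem_singleton_iff, Prod.mk.injEq] at h
          simp only [Set.mem_ofPred_eq] at h'
          rw [h.1] at h'; exact absurd h' (hxx i')
        · exact hcomp y i h i' h'
        · simp only [Set.mem_singleton_iff, Prod.mk.injEq] at h'
          simp only [Set.mem_ofPred_eq] at h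
          rw [h'.1] at h; exact absurd h (hxx i)
        · exact Chn.uniq hC hP (Reach.chn h) (Reach.chn h')
      · rintro y j z i (h | h | h) hst hij
        · exact Or.inl (hG.cl y j z i h hst hij)
        · simp only [Set.mem_singleton_iff, Prod.mk.injEq] at h
          rw [h.1] at hst
          rw [h.2] at hij
          exact Or.inr (Or.inr (Reach.one hij hst))
        · exact Or.inr (Or.inr (Reach.snoc h hij hst))
    have hsub : A ⊆ A' := Set.subset_union_left
    have hle := hA.le_of_ge hA' hsub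
    exact hx 0 (hle (Or.inr (Or.inl rfl)))
  choose o ho using hdom
  refine ⟨o, fun x => hG.dvd x _ (ho x), fun i x y hst => ?_⟩
  by_cases h : o x = i
  · exact Or.inl h
  · exact Or.inr (hG.fn y _ _ (ho y) (hG.cl x (o x) y i (ho x) hst (Ne.symm h)))

end Pool.Agent.Lib.MP_908f5f_co
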