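import Pool.Agent.Lib.MP_908f5f_co.Blocks

/-!
Long squares do not occur either; existence of long square-free words.
-/

set_option autoImplicit false

namespace Pool.Agent.Lib.MP_908f5f_co

namespace IsCat

variable {u ε b f : ℕ → ℕ} (h : IsCat u ε b f)
include h

/-- the first block start at or after `a`. -/
lemma first (a : ℕ) : ∃ i, a ≤ b i ∧ b i ≤ a + 18 ∧ ∀ j, a ≤ b j → i ≤ j := by
  have hex : ∃ t, a ≤ b t := ⟨a, h.mono.id_le a⟩
  classical
  refine ⟨Nat.find hex, Nat.find_spec hex, ?_, fun j hj => Nat.find_min' hex hj⟩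
  rcases Nat.eq_zero_or_pos (Nat.find hex) with h0 | h0
  · rw [h0, h.b0]; omega
  · have h1 := Nat.find_min hex (m := Nat.find hex - 1) (by omega)
    have h2 := h.step_ge (Nat.find hex - 1)
    rw [show Nat.find hex - 1 + 1 = Nat.find hex by omega] at h2
    omega

lemma long {M a q : ℕ} (hM : SqFreeTo u M) (hq : 21 ≤ q)
    (haq : a + 2 * q ≤ b (M - 3)) (h4 : 3 ≤ M) : ∃ m, m < q ∧ f (a + m) ≠ f (a + q + m) := by
  by_contra hcon
  push Not at hcon
  -- transfer of short factors
  have htr : ∀ n l, a ≤ n → n + l ≤ a + q → enc f n l = enc f (n + q) l := by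
    intro n l h1 h2
    refine enc_congr f f l n (n + q) fun m hm => ?_
    have h3 := hcon (n + m - a) (by omega)
    rw [show a + (n + m - a) = n + m by omega, show a + q + (n + m - a) = n + q + m by omega] at h3
    exact h3
  have hfwd : ∀ n, a ≤ n → n + 3 ≤ a + q → (∃ t, n = b t) → ∃ t, n + q = b t := by
    intro n h1 h2 h3
    rw [← h.mark_iff] at h3 ⊢
    rw [← htr n 3 h1 h2]; exact h3
  have hbwd : ∀ n, a ≤ n → n + 3 ≤ a + q → (∃ t, n + q = b t) → ∃ t, n = b t := by
    intro n h1 h2 h3
    rw [← h.mark_iff] at h3 ⊢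
    rw [htr n 3 h1 h2]; exact h3
  obtain ⟨i, hi1, hi2, hi3⟩ := h.first a
  obtain ⟨k, hk⟩ := hfwd (b i) hi1 (by omega) ⟨i, rfl⟩
  have hik : i < k := by
    have : b i < b k := by omega
    exact h.mono.lt_iff_lt.1 this
  -- no block start in `[a+q, b k)`
  have hno : ∀ t, a + q ≤ b t → k ≤ t := by
    intro t ht
    by_contra hc
    have hlt : b t < b k := h.mono (by omega)
    obtain ⟨s, hs⟩ := hbwd (b t - q) (by omega) (by omega) ⟨t, by omega⟩
    have h1 := hi3 s (by omega)
    have h2 := h.mono.monotone h1
    omega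
  obtain ⟨m, hm⟩ := Nat.exists_eq_add_of_le hik.le
  have hm0 : 0 < m := by omega
  -- transfer of boundaries
  have hbd : ∀ j, b (i + j) + 3 ≤ a + q → b (i + j) + q = b (i + j + m) := by
    intro j
    induction j with
    | zero => intro _; rw [add_zero, hk, hm]
    | succ j ih =>
      intro hj
      have hs1 := h.step_le (i + j)
      have ih' := ih (by rw [show i + (j + 1) = i + j + 1 by ring] at hj; omega)
      have hmi : b i ≤ b (i + j) := h.mono.monotone (by omega)
      rw [show i + (j + 1) = i + j + 1 by ring] at hj ⊢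
      obtain ⟨s, hs⟩ := hfwd (b (i + j + 1)) (by omega) hj ⟨_, rfl⟩
      have h1 : b (i + j + m) < b s := by omega
      have h2 : i + j + m < s := h.mono.lt_iff_lt.1 h1
      have h3 : b (i + j + m + 1) ≤ b s := h.mono.monotone h2
      rcases h3.lt_or_eq with h4 | h4
      · exfalso
        have h5 : b (i + j + m) < b (i + j + m + 1) := h.mono (by omega)
        obtain ⟨r, hr⟩ := hbwd (b (i + j + m + 1) - q) (by omega) (by omega)
          ⟨i + j + m + 1, by omega⟩
        have h6 : b (i + j) < b r := by omega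
        have h7 : b r < b (i + j + 1) := by omega
        have h8 := h.mono.lt_iff_lt.1 h6
        have h9 := h.mono.lt_iff_lt.1 h7
        omega
      · rw [hs, ← h4]; congr 1; ring
  -- transfer of letters
  have hlet : ∀ t, i ≤ t → b t + 12 ≤ a + q → u t = u (t + m) := by
    intro t hit ht
    obtain ⟨j, rfl⟩ := Nat.exists_eq_add_of_le hit
    have h1 := hbd j (by omega)
    have hmi : b i ≤ b (i + j) := h.mono.monotone (by omega)
    have h2 := htr (b (i + j)) 12 (by omega) ht
    rw [h1] at h2
    have h3 := enc_sub f h.hf4 (b (i + j)) (18 + ε (i + j)) 0 12 (by omega)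
    have h5 := enc_sub f h.hf4 (b (i + j + m)) (18 + ε (i + j + m)) 0 12 (by omega)
    rw [h.hf] at h3 h5
    simp only [pow_zero, Nat.div_one, add_zero] at h3 h5
    exact pre (h.hu (i + j)) (h.hu (i + j + m)) (h.he (i + j)) (h.he (i + j + m)) (by rw [h3, h5, h2])
  -- the last block start before the middle
  have hk1 : b (k - 1) < a + q := by
    by_contra hc
    have := hno (k - 1) (by omega)
    omega
  have hall : ∀ t, i ≤ t → t + 2 ≤ k → u t = u (t + m) := by
    intro t h1 h2
    refine hlet t h1 ?_
    have h3 := h.step_le t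
    have h5 : b (t + 1) ≤ b (k - 1) := h.mono.monotone (by omega)
    omega
  have hkk := h.bs (k - 1)
  rw [show k - 1 + 1 = k by omega] at hkk
  have hek := h.he (k - 1)
  by_cases hs : b (k - 1) + 12 ≤ a + q
  · -- square in `u` starting at `i`
    have hlast : u (k - 1) = u (k - 1 + m) := hlet (k - 1) (by omega) hs
    have hbk : b (k - 1) + q = b (k - 1 + m) := by
      have := hbd (k - 1 - i) (by rw [show i + (k - 1 - i) = k - 1 by omega]; omega)
      rwa [show i + (k - 1 - i) = k - 1 by omega] at this
    have hr : k - 1 + m < M - 3 := by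
      by_contra hc
      have := h.mono.monotone (show M - 3 ≤ k - 1 + m by omega)
      omega
    obtain ⟨r, hr1, hr2⟩ := hM i m hm0 (by omega)
    apply hr2
    rw [show i + m + r = i + r + m by ring]
    by_cases hc : i + r + 2 ≤ k
    · exact hall (i + r) (by omega) hc
    · have : i + r = k - 1 := by omega
      rw [this]; exact hlast
  · -- square in `u` starting at `i - 1`
    have hi0 : 0 < i := by
      rcases Nat.eq_zero_or_pos i with h0 | h0
      · exfalso
        rw [h0, h.b0] at hk hi1
        omega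
      · exact h0
    have hbi := h.bs (i - 1)
    rw [show i - 1 + 1 = i by omega] at hbi
    have hei := h.he (i - 1)
    have hfirst : u (i - 1) = u (k - 1) := by
      have h2 := htr (b i - 6) 6 (by omega) (by omega)
      have h3 := enc_sub f h.hf4 (b (i - 1)) (18 + ε (i - 1)) (12 + ε (i - 1)) 6 (by omega)
      have h5 := enc_sub f h.hf4 (b (k - 1)) (18 + ε (k - 1)) (12 + ε (k - 1)) 6 (by omega)
      rw [h.hf] at h3 h5
      refine suf (h.hu (i - 1)) (h.hu (k - 1)) (h.he (i - 1)) (h.he (k - 1)) ?_
      rw [h3, h5, show b (i - 1) + (12 + ε (i - 1)) = b i - 6 by omega,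
        show b (k - 1) + (12 + ε (k - 1)) = b i - 6 + q by omega, h2]
    have hr : k - 1 + m ≤ M := by
      have hx : b (k - 1) ≤ a + 2 * q := by omega
      by_contra hc
      -- the block `k - 2 + m` starts before `a + 2 q`
      by_cases hk2 : i + 2 ≤ k
      · have h6 := h.step_le (k - 2)
        rw [show k - 2 + 1 = k - 1 by omega] at h6
        have h7 := hbd (k - 2 - i) (by rw [show i + (k - 2 - i) = k - 2 by omega]; omega)
        rw [show i + (k - 2 - i) = k - 2 by omega] at h7
        have h8 := h.mono.monotone (show M - 3 ≤ k - 2 + m by omega)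
        omega
      · have h8 := h.mono.monotone (show M - 3 ≤ k - 1 by omega)
        omega
    obtain ⟨r, hr1, hr2⟩ := hM (i - 1) m hm0 (by omega)
    apply hr2
    rcases Nat.eq_zero_or_pos r with h0 | h0
    · subst h0
      simp only [add_zero]
      rw [hfirst]; congr 1; omega
    · rw [show i - 1 + m + r = i - 1 + r + m by ring]
      exact hall (i - 1 + r) (by omega) (by omega)

theorem sqFree {M : ℕ} (hM : SqFreeTo u M) (h4 : 3 ≤ M) : SqFreeTo f (b (M - 3)) := by
  intro a q hq0 haq
  rcases Nat.lt_or_ge q 21 with h1 | h1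
  · exact h.short hM hq0 (by omega) haq h4
  · exact h.long hM h1 haq h4

end IsCat

end Pool.Agent.Lib.MP_908f5f_co
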