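import Pool.Agent.Lib.MP_908f5f_co.Build

/-!
Local modification: at separated positions the letters of a square-free word can be prescribed.
-/

set_option autoImplicit false

namespace Pool.Agent.Lib.MP_908f5f_co

/-- block lengths for a shift function `E`. -/
def epsOf (E : ℕ → ℕ) (t : ℕ) : ℕ :=
  if t % 2 = 0 then (if E (t / 2 + 1) = E (t / 2) + 1 then 1 else 0)
  else (if E (t / 2 + 1) + 1 = E (t / 2) then 0 else 1)

lemma epsOf_le (E : ℕ → ℕ) (t : ℕ) : epsOf E t ≤ 1 := by
  unfold epsOf; split_ifs <;> omega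

lemma epsOf_even (E : ℕ → ℕ) (r : ℕ) :
    epsOf E (2 * r) = if E (r + 1) = E r + 1 then 1 else 0 := by
  unfold epsOf
  rw [if_pos (by omega), show 2 * r / 2 = r by omega]

lemma epsOf_odd (E : ℕ → ℕ) (r : ℕ) :
    epsOf E (2 * r + 1) = if E (r + 1) + 1 = E r then 0 else 1 := by
  unfold epsOf
  rw [if_neg (by omega), show (2 * r + 1) / 2 = r by omega]

/-- admissible shift functions. -/
structure Adm (E : ℕ → ℕ) : Prop where
  z : E 0 = 0
  s : ∀ r, E (r + 1) ≤ E r + 1 ∧ E r ≤ E (r + 1) + 1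

lemma bpos_even {E : ℕ → ℕ} (h : Adm E) (r : ℕ) : bpos (epsOf E) (2 * r) = 37 * r + E r := by
  induction r with
  | zero => simp [bpos, h.z]
  | succ r ih =>
    rw [show 2 * (r + 1) = 2 * r + 1 + 1 by ring]
    simp only [bpos]
    rw [ih, epsOf_even, epsOf_odd]
    have := h.s r
    split_ifs <;> omega

/-- two structures with parallel shifts carry the same letters. -/
lemma wd_shift (u : ℕ → ℕ) {E E' : ℕ → ℕ} (h : Adm E) (h' : Adm E') {r d j : ℕ}
    (h0 : E r = E' r + d) (h1 : E (r + 1) = E' (r + 1) + d) (hj : j + E r < 37 + E (r + 1)) :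
    wd u (epsOf E) (37 * r + E r + j) = wd u (epsOf E') (37 * r + E' r + j) := by
  have e0 : epsOf E (2 * r) = epsOf E' (2 * r) := by
    rw [epsOf_even, epsOf_even]
    split_ifs <;> omega
  have e1 : epsOf E (2 * r + 1) = epsOf E' (2 * r + 1) := by
    rw [epsOf_odd, epsOf_odd]
    split_ifs <;> omega
  have b0 := bpos_even h r
  have b0' := bpos_even h' r
  have b1 : bpos (epsOf E) (2 * r + 1) = bpos (epsOf E) (2 * r) + 18 + epsOf E (2 * r) := rfl
  have b1' : bpos (epsOf E') (2 * r + 1) = bpos (epsOf E') (2 * r) + 18 + epsOf E' (2 * r) := rfl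
  have b2 : bpos (epsOf E) (2 * r + 2) = bpos (epsOf E) (2 * r + 1) + 18 + epsOf E (2 * r + 1) :=
    rfl
  have b3 := bpos_even h (r + 1)
  rw [show 2 * (r + 1) = 2 * r + 2 by ring] at b3
  by_cases hc : j < 18 + epsOf E (2 * r)
  · have g1 := wd_eq u (epsOf E) (t := 2 * r) (j := j) hc
    have g2 := wd_eq u (epsOf E') (t := 2 * r) (j := j) (by omega)
    rw [b0] at g1
    rw [b0'] at g2
    rw [g1, g2, e0]
  · have g1 := wd_eq u (epsOf E) (t := 2 * r + 1) (j := j - 18 - epsOf E (2 * r)) (by omega)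
    have g2 := wd_eq u (epsOf E') (t := 2 * r + 1) (j := j - 18 - epsOf E (2 * r)) (by omega)
    rw [show bpos (epsOf E) (2 * r + 1) + (j - 18 - epsOf E (2 * r)) = 37 * r + E r + j by
      omega] at g1
    rw [show bpos (epsOf E') (2 * r + 1) + (j - 18 - epsOf E (2 * r)) = 37 * r + E' r + j by
      omega] at g2
    rw [g1, g2, e1]

lemma adm_zero : Adm (fun _ => 0) := ⟨rfl, fun _ => by omega⟩

/-- the default word. -/
def F0 (u : ℕ → ℕ) (n : ℕ) : ℕ := wd u (epsOf fun _ => 0) n

lemma wd_zero (u : ℕ → ℕ) {E : ℕ → ℕ} (h : Adm E) {r d j : ℕ}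
    (h0 : E r = d) (h1 : E (r + 1) = d) (hj : j < 37) :
    wd u (epsOf E) (37 * r + d + j) = F0 u (37 * r + j) := by
  have := wd_shift u h adm_zero (r := r) (d := d) (j := j) (by omega) (by omega) (by omega)
  rw [h0] at this
  simpa [F0] using this

lemma sqFree_wd {u : ℕ → ℕ} (hu : ∀ t, u t < 3) (hs : ∀ M, SqFreeTo u M) (ε : ℕ → ℕ)
    (he : ∀ t, ε t ≤ 1) (a q : ℕ) (hq : 0 < q) :
    ∃ m, m < q ∧ wd u ε (a + m) ≠ wd u ε (a + q + m) := by
  have h := (isCat_wd u ε hu he).sqFree (M := a + 2 * q + 3) (hs _) (by omega)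
  refine h a q hq ?_
  rw [show a + 2 * q + 3 - 3 = a + 2 * q by omega]
  have := bpos_ge ε (a + 2 * q)
  omega

lemma four_letters : ∀ x0 x1 x2 x3 c : Fin 3, x0 ≠ x1 → x1 ≠ x2 → x2 ≠ x3 →
    ¬ (x0 = x2 ∧ x1 = x3) → c ≠ x0 → c ≠ x1 → c ≠ x2 → c = x3 := by decide

/-- any four consecutive letters contain all three letters. -/
lemma all_letters {u : ℕ → ℕ} (hu : ∀ t, u t < 3) (hs : ∀ M, SqFreeTo u M) (n c : ℕ) (hc : c < 3)
    (h3 : F0 u (n + 3) ≠ c) (h2 : F0 u (n + 2) ≠ c) (h1 : F0 u (n + 1) ≠ c) : F0 u n = c := by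
  have hlt : ∀ n, F0 u n < 3 := fun n => wd_lt u _ hu (epsOf_le _) n
  have hsq : ∀ a q, 0 < q → ∃ m, m < q ∧ F0 u (a + m) ≠ F0 u (a + q + m) := fun a q hq =>
    sqFree_wd hu hs _ (epsOf_le _) a q hq
  have hone : ∀ a, F0 u a ≠ F0 u (a + 1) := by
    intro a
    obtain ⟨m, hm, hm2⟩ := hsq a 1 one_pos
    have : m = 0 := by omega
    subst this
    simpa using hm2
  have htwo : ¬ (F0 u (n + 3) = F0 u (n + 1) ∧ F0 u (n + 2) = F0 u n) := by
    rintro ⟨g1, g2⟩
    obtain ⟨m, hm, hm2⟩ := hsq n 2 two_pos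
    interval_cases m
    · exact hm2 g2.symm
    · exact hm2 g1.symm
  have key := four_letters ⟨_, hlt (n + 3)⟩ ⟨_, hlt (n + 2)⟩ ⟨_, hlt (n + 1)⟩ ⟨_, hlt n⟩ ⟨c, hc⟩
    (fun h => hone (n + 2) (by simpa using (congrArg Fin.val h).symm))
    (fun h => hone (n + 1) (by simpa using (congrArg Fin.val h).symm))
    (fun h => hone n (by simpa using (congrArg Fin.val h).symm))
    (fun h => htwo ⟨by simpa using congrArg Fin.val h.1, by simpa using congrArg Fin.val h.2⟩)
    (fun h => h3 (by simpa using (congrArg Fin.val h).symm))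
    (fun h => h2 (by simpa using (congrArg Fin.val h).symm))
    (fun h => h1 (by simpa using (congrArg Fin.val h).symm))
  simpa using (congrArg Fin.val key).symm

/-- the pair index of the forced position `s`. -/
def rr (s : ℕ) : ℕ := s / 37 + 10

def Near (S : ℕ → Prop) (r s : ℕ) : Prop := S s ∧ r ≤ rr s + 5 ∧ rr s ≤ r + 5

/-- the amount of shift at the forced position `s` with letter `c`. -/
def dl (u : ℕ → ℕ) (c s : ℕ) : ℕ :=
  if F0 u (s + 370) = c then 0 else if F0 u (s + 369) = c then 1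
    else if F0 u (s + 368) = c then 2 else 3

lemma dl_le (u : ℕ → ℕ) (c s : ℕ) : dl u c s ≤ 3 := by
  unfold dl; split_ifs <;> omega

lemma dl_spec {u : ℕ → ℕ} (hu : ∀ t, u t < 3) (hs : ∀ M, SqFreeTo u M) (c s : ℕ) (hc : c < 3) :
    F0 u (s + 370 - dl u c s) = c := by
  unfold dl
  split_ifs with h0 h1 h2
  · exact h0
  · rw [show s + 370 - 1 = s + 369 by omega]; exact h1
  · rw [show s + 370 - 2 = s + 368 by omega]; exact h2
  · rw [show s + 370 - 3 = s + 367 by omega]
    exact all_letters hu hs (s + 367) c hc h0 h1 h2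

def gg (d r R : ℕ) : ℕ := min d (5 - ((r - R) + (R - r)))

open Classical in
/-- the shift function. -/
noncomputable def EE (u : ℕ → ℕ) (S : ℕ → Prop) (c : ℕ → ℕ) (r : ℕ) : ℕ :=
  if h : ∃ s, Near S r s then gg (dl u (c h.choose) h.choose) r (rr h.choose) else 0

section
variable (u : ℕ → ℕ) (S : ℕ → Prop)
  (hS : ∀ s s', S s → S s' → s ≠ s' → s + 500 < s' ∨ s' + 500 < s)
include hS

lemma near_uniq {r r' s s' : ℕ} (hr : r ≤ r' + 1) (hr' : r' ≤ r + 1) (h : Near S r s)
    (h' : Near S r' s') : s = s' := by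
  by_contra hne
  obtain ⟨a1, a2, a3⟩ := h
  obtain ⟨b1, b2, b3⟩ := h'
  unfold rr at a2 a3 b2 b3
  rcases hS s s' a1 b1 hne with h | h <;> omega

lemma EE_near (c : ℕ → ℕ) {r s : ℕ} (h : Near S r s) :
    EE u S c r = gg (dl u (c s) s) r (rr s) := by
  classical
  have hex : ∃ s, Near S r s := ⟨s, h⟩
  unfold EE
  rw [dif_pos hex]
  have : hex.choose = s := near_uniq S hS (by omega) (by omega) hex.choose_spec h
  rw [this]

lemma EE_far (c : ℕ → ℕ) {r : ℕ} (h : ∀ s, ¬ Near S r s) : EE u S c r = 0 := by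
  classical
  unfold EE
  rw [dif_neg (fun ⟨s, hs⟩ => h s hs)]

lemma EE_le (c : ℕ → ℕ) (r : ℕ) : EE u S c r ≤ 3 := by
  classical
  by_cases h : ∃ s, Near S r s
  · obtain ⟨s, hs⟩ := h
    rw [EE_near u S hS c hs]
    unfold gg
    exact (min_le_left _ _).trans (dl_le _ _ _)
  · rw [EE_far u S hS c (fun s hs => h ⟨s, hs⟩)]; omega

lemma EE_adm (c : ℕ → ℕ) : Adm (EE u S c) := by
  constructor
  · apply EE_far u S hS c
    rintro s ⟨_, _, h3⟩
    unfold rr at h3
    omega
  · intro r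
    by_cases h : ∃ s, Near S r s ∨ Near S (r + 1) s
    · obtain ⟨s, hs⟩ := h
      have h0 : EE u S c r = gg (dl u (c s) s) r (rr s) := by
        rcases hs with hs | hs
        · exact EE_near u S hS c hs
        · by_cases hn : Near S r s
          · exact EE_near u S hS c hn
          · rw [EE_far u S hS c (fun s' hs' => ?_)]
            · unfold gg
              have : ¬ (r ≤ rr s + 5 ∧ rr s ≤ r + 5) := fun hx => hn ⟨hs.1, hx⟩
              have h1 := hs.2.1
              have h2 := hs.2.2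
              have : 5 - ((r - rr s) + (rr s - r)) = 0 := by omega
              rw [this]; simp
            · have := near_uniq S hS (by omega) (by omega) hs' hs
              rw [this] at hs'
              exact hn hs'
      have h1 : EE u S c (r + 1) = gg (dl u (c s) s) (r + 1) (rr s) := by
        rcases hs with hs | hs
        · by_cases hn : Near S (r + 1) s
          · exact EE_near u S hS c hn
          · rw [EE_far u S hS c (fun s' hs' => ?_)]
            · unfold gg
              have : ¬ (r + 1 ≤ rr s + 5 ∧ rr s ≤ r + 1 + 5) := fun hx => hn ⟨hs.1, hx⟩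
              have h1 := hs.2.1
              have h2 := hs.2.2
              have : 5 - ((r + 1 - rr s) + (rr s - (r + 1))) = 0 := by omega
              rw [this]; simp
            · have := near_uniq S hS (by omega) (by omega) hs' hs
              rw [this] at hs'
              exact hn hs'
        · exact EE_near u S hS c hs
      rw [h0, h1]
      unfold gg
      omega
    · have h' : ∀ s, ¬ Near S r s ∧ ¬ Near S (r + 1) s := fun s =>
        ⟨fun hx => h ⟨s, Or.inl hx⟩, fun hx => h ⟨s, Or.inr hx⟩⟩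
      rw [EE_far u S hS c (fun s => (h' s).1), EE_far u S hS c (fun s => (h' s).2)]
      omega

end

/-- the word with prescribed letters `c` at the positions in `S`. -/
noncomputable def Phi (u : ℕ → ℕ) (S : ℕ → Prop) (c : ℕ → ℕ) (n : ℕ) : ℕ :=
  wd u (epsOf (EE u S c)) (n + 370)

section
variable {u : ℕ → ℕ} (hu : ∀ t, u t < 3) (hs : ∀ M, SqFreeTo u M) {S : ℕ → Prop}
  (hS : ∀ s s', S s → S s' → s ≠ s' → s + 500 < s' ∨ s' + 500 < s)
include hu

lemma Phi_lt (c : ℕ → ℕ) (n : ℕ) : Phi u S c n < 3 := wd_lt u _ hu (epsOf_le _) _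

include hs

lemma Phi_sqFree (c : ℕ → ℕ) (a q : ℕ) (hq : 0 < q) :
    ∃ m, m < q ∧ Phi u S c (a + m) ≠ Phi u S c (a + q + m) := by
  obtain ⟨m, hm, hm2⟩ := sqFree_wd hu hs (epsOf (EE u S c)) (epsOf_le _) (a + 370) q hq
  refine ⟨m, hm, ?_⟩
  unfold Phi
  rwa [show a + m + 370 = a + 370 + m by ring, show a + q + m + 370 = a + 370 + q + m by ring]

include hS

lemma Phi_forced (c : ℕ → ℕ) {s : ℕ} (h : S s) (hc : c s < 3) : Phi u S c s = c s := by
  have hadm := EE_adm u S hS c
  set d := dl u (c s) s with hd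
  have hd3 : d ≤ 3 := dl_le _ _ _
  have hE : ∀ r, r ≤ rr s + 1 → rr s ≤ r + 1 → EE u S c r = d := by
    intro r h1 h2
    rw [EE_near u S hS c (s := s) ⟨h, by omega, by omega⟩]
    unfold gg
    omega
  have hR : rr s = s / 37 + 10 := rfl
  have hspec := dl_spec hu hs (c s) s hc
  rw [← hd] at hspec
  unfold Phi
  by_cases hcs : 37 * rr s + d ≤ s + 370
  · have h1 := wd_zero u hadm (r := rr s) (d := d) (j := s + 370 - 37 * rr s - d)
      (hE _ (by omega) (by omega)) (hE _ (by omega) (by omega)) (by omega)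
    rw [show 37 * rr s + d + (s + 370 - 37 * rr s - d) = s + 370 by omega,
      show 37 * rr s + (s + 370 - 37 * rr s - d) = s + 370 - d by omega] at h1
    rw [h1, hspec]
  · have h1 := wd_zero u hadm (r := rr s - 1) (d := d) (j := s + 370 - 37 * (rr s - 1) - d)
      (hE _ (by omega) (by omega)) (hE _ (by omega) (by omega)) (by omega)
    rw [show 37 * (rr s - 1) + d + (s + 370 - 37 * (rr s - 1) - d) = s + 370 by omega,
      show 37 * (rr s - 1) + (s + 370 - 37 * (rr s - 1) - d) = s + 370 - d by omega] at h1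
    rw [h1, hspec]

omit hs in
lemma Phi_local (c c' : ℕ → ℕ) (n : ℕ)
    (h : ∀ s, S s → s ≤ n + 300 → n ≤ s + 300 → c s = c' s) : Phi u S c n = Phi u S c' n := by
  have hadm := EE_adm u S hS c
  have hadm' := EE_adm u S hS c'
  -- the pair containing the position
  obtain ⟨r, hr1, hr2⟩ : ∃ r, 37 * r + EE u S c r ≤ n + 370 ∧
      n + 370 < 37 * (r + 1) + EE u S c (r + 1) := by
    have e0 := EE_le u S hS c ((n + 370) / 37)
    have e1 := EE_le u S hS c ((n + 370) / 37 + 1)
    have e2 := EE_le u S hS c ((n + 370) / 37 - 1)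
    by_cases hc : 37 * ((n + 370) / 37) + EE u S c ((n + 370) / 37) ≤ n + 370
    · exact ⟨_, hc, by omega⟩
    · refine ⟨(n + 370) / 37 - 1, by omega, ?_⟩
      rw [show (n + 370) / 37 - 1 + 1 = (n + 370) / 37 by omega]
      omega
  have e0 := EE_le u S hS c r
  have e1 := EE_le u S hS c (r + 1)
  have hEq : ∀ r', (r' = r ∨ r' = r + 1) → EE u S c r' = EE u S c' r' := by
    intro r' hr'
    by_cases hex : ∃ s, Near S r' s
    · obtain ⟨s, hns⟩ := hex
      rw [EE_near u S hS c hns, EE_near u S hS c' hns]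
      obtain ⟨g1, g2, g3⟩ := hns
      unfold rr at g2 g3
      rw [h s g1 (by omega) (by omega)]
    · rw [EE_far u S hS c (fun s hx => hex ⟨s, hx⟩), EE_far u S hS c' (fun s hx => hex ⟨s, hx⟩)]
  have q0 := hEq r (Or.inl rfl)
  have q1 := hEq (r + 1) (Or.inr rfl)
  have key := wd_shift u hadm hadm' (r := r) (d := 0) (j := n + 370 - 37 * r - EE u S c r)
    (by omega) (by omega) (by omega)
  unfold Phi
  rw [show 37 * r + EE u S c r + (n + 370 - 37 * r - EE u S c r) = n + 370 by omega,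
    show 37 * r + EE u S c' r + (n + 370 - 37 * r - EE u S c r) = n + 370 by omega] at key
  exact key

end

end Pool.Agent.Lib.MP_908f5f_co
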