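import Pool.Agent.Lib.MP_908f5f_co.Shift
import Pool.Agent.Lib.MP_908f5f_co.Chain

/-!
Solving the acyclic system of local equations, and the main existence statement.
-/

set_option autoImplicit false

namespace Pool.Agent.Lib.MP_908f5f_co

/-- a finite part of an acyclic system `w x = Ψ x w` is solvable. -/
lemma solve_finite (Dep : ℕ → ℕ → Prop) (hac : ∀ x, ¬ Relation.TransGen Dep x x)
    (Ψ : ℕ → (ℕ → ℕ) → ℕ) (hΨ3 : ∀ x w, Ψ x w < 3)
    (hloc : ∀ x w w', (∀ y, Dep x y → w y = w' y) → Ψ x w = Ψ x w') (n : ℕ) :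
    ∀ F : Finset ℕ, F.card = n → ∃ w : ℕ → ℕ, (∀ x, w x < 3) ∧ ∀ x ∈ F, w x = Ψ x w := by
  classical
  induction n with
  | zero =>
    intro F hF
    rw [Finset.card_eq_zero] at hF
    subst hF
    exact ⟨fun _ => 0, fun _ => by norm_num, fun x hx => absurd hx (Finset.notMem_empty x)⟩
  | succ n ih =>
    intro F hF
    -- an element on which no other element of `F` depends
    obtain ⟨x, hxF, hx⟩ : ∃ x ∈ F, ∀ y ∈ F, ¬ Dep y x := by
      have hne : F.Nonempty := by rw [← Finset.card_pos]; omega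
      let r : F → F → Prop := fun a b => Relation.TransGen Dep a b
      haveI : IsTrans F r := ⟨fun a b c h1 h2 => Relation.TransGen.trans h1 h2⟩
      haveI : Std.Irrefl r := ⟨fun a h => hac a h⟩
      have hwf : WellFounded r := Finite.wellFounded_of_trans_of_irrefl r
      obtain ⟨m, -, hm⟩ := hwf.has_min Set.univ ⟨⟨hne.choose, hne.choose_spec⟩, Set.mem_univ _⟩
      exact ⟨m, m.2, fun y hy hd => hm ⟨y, hy⟩ (Set.mem_univ _) (Relation.TransGen.single hd)⟩
    obtain ⟨w, hw3, hw⟩ := ih (F.erase x) (by rw [Finset.card_erase_of_mem hxF, hF]; rfl)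
    refine ⟨Function.update w x (Ψ x w), ?_, ?_⟩
    · intro y
      by_cases hy : y = x
      · subst hy; rw [Function.update_self]; exact hΨ3 _ _
      · rw [Function.update_of_ne hy]; exact hw3 y
    · have hsame : ∀ y ∈ F, Ψ y (Function.update w x (Ψ x w)) = Ψ y w := by
        intro y hy
        refine hloc y _ _ fun z hz => ?_
        by_cases hzx : z = x
        · subst hzx; exact absurd hz (hx y hy)
        · rw [Function.update_of_ne hzx]
      intro y hy
      rw [hsame y hy]
      by_cases hyx : y = x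
      · subst hyx; rw [Function.update_self]
      · rw [Function.update_of_ne hyx]
        exact hw y (Finset.mem_erase.2 ⟨hyx, hy⟩)

theorem main_exists (P : ℕ → ℕ) (hP0 : P 0 = 1) (hP : ∀ j, 2000 * P j < P (j + 1)) :
    ∃ w : ℕ → ℕ, (∀ n, w n < 3) ∧ ∀ i a q, 0 < q →
      ∃ m, m < q ∧ w (P i * (a + m)) ≠ w (P i * (a + q + m)) := by
  have hP' : ∀ j, 4 * (500 * P j) < P (j + 1) := fun j => by have := hP j; omega
  have hpos : ∀ i, 0 < P i := by
    intro i
    cases i with
    | zero => rw [hP0]; exact one_pos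
    | succ i => have := hP i; omega
  obtain ⟨o, ho1, ho2⟩ := exists_owner (C := 500) (by norm_num) hP0 hP'
  obtain ⟨u, hu, hs⟩ := exists_inf
  -- forced positions
  let S : ℕ → ℕ → Prop := fun i n => o (P i * n) ≠ i
  have hS : ∀ i s s', S i s → S i s' → s ≠ s' → s + 500 < s' ∨ s' + 500 < s := by
    intro i s s' h1 h2 hne
    by_contra hcon
    push Not at hcon
    have hst : Step P 500 i (P i * s) (P i * s') := by
      refine ⟨Dvd.intro _ rfl, Dvd.intro _ rfl, ?_, ?_, ?_⟩
      · intro he
        exact hne (Nat.eq_of_mul_eq_mul_left (hpos i) he)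
      · calc P i * s ≤ P i * (s' + 500) := Nat.mul_le_mul_left _ hcon.2
          _ = P i * s' + 500 * P i := by ring
      · calc P i * s' ≤ P i * (s + 500) := Nat.mul_le_mul_left _ hcon.1
          _ = P i * s + 500 * P i := by ring
    rcases ho2 i _ _ hst with h | h
    · exact h1 h
    · exact h2 h
  -- the local equations
  let Ψ : ℕ → (ℕ → ℕ) → ℕ := fun x w =>
    Phi u (S (o x)) (fun s => w (P (o x) * s)) (x / P (o x))
  let Dep : ℕ → ℕ → Prop := fun x y => Step P 500 (o x) x y ∧ o y ≠ o x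
  have hchain : ∀ x y, Relation.TransGen Dep x y → ∃ l, Chn P 500 x y l ∧ o y ≠ l := by
    intro x y h
    induction h with
    | single h => exact ⟨_, Chn.one h.1, h.2⟩
    | tail _ h ih =>
      obtain ⟨l, h1, h2⟩ := ih
      exact ⟨_, h1.snoc h2 h.1, h.2⟩
  have hac : ∀ x, ¬ Relation.TransGen Dep x x := by
    intro x h
    obtain ⟨l, h1, -⟩ := hchain x x h
    exact Chn.ne (by norm_num) hP' h1 rfl
  have hloc : ∀ x w w', (∀ y, Dep x y → w y = w' y) → Ψ x w = Ψ x w' := by
    intro x w w' h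
    refine Phi_local hu (hS (o x)) _ _ _ fun s h1 h2 h3 => h _ ⟨⟨ho1 x, Dvd.intro _ rfl, ?_, ?_,
      ?_⟩, h1⟩
    · intro he
      exact h1 (by rw [← he])
    · have hx := Nat.div_mul_cancel (ho1 x)
      calc x = x / P (o x) * P (o x) := hx.symm
        _ ≤ (s + 300) * P (o x) := Nat.mul_le_mul_right _ h3
        _ ≤ P (o x) * s + 500 * P (o x) := by nlinarith
    · have hx := Nat.div_mul_cancel (ho1 x)
      calc P (o x) * s ≤ P (o x) * (x / P (o x) + 300) := Nat.mul_le_mul_left _ h2
        _ = x / P (o x) * P (o x) + 300 * P (o x) := by ring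
        _ ≤ x + 500 * P (o x) := by rw [hx]; nlinarith
  refine exists_word P fun N => ?_
  obtain ⟨w, hw3, hw⟩ := solve_finite Dep hac Ψ (fun x w => Phi_lt hu _ _) hloc _
    (Finset.range (N + 1)) rfl
  refine ⟨w, hw3, fun i a q hq hN => ?_⟩
  have hval : ∀ n, P i * n ≤ N → w (P i * n) = Phi u (S i) (fun s => w (P i * s)) n := by
    intro n hn
    by_cases hi : o (P i * n) = i
    · have h1 := hw (P i * n) (Finset.mem_range.2 (by omega))
      have h2 : Ψ (P i * n) w = Phi u (S i) (fun s => w (P i * s)) n := by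
        change Phi u (S (o (P i * n))) (fun s => w (P (o (P i * n)) * s))
          (P i * n / P (o (P i * n))) = _
        rw [hi, Nat.mul_div_cancel_left _ (hpos i)]
      rw [h1, h2]
    · exact (Phi_forced hu hs (hS i) (fun s => w (P i * s)) (s := n) hi (hw3 _)).symm
  obtain ⟨m, hm, hm2⟩ := Phi_sqFree hu hs (S := S i) (fun s => w (P i * s)) a q hq
  refine ⟨m, hm, ?_⟩
  rw [hval (a + m), hval (a + q + m)]
  · exact hm2
  · exact (Nat.mul_le_mul_left _ (by omega)).trans hN
  · exact (Nat.mul_le_mul_left _ (by omega)).trans hN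

end Pool.Agent.Lib.MP_908f5f_co
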